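import Pool.Agent.helper62.MS.SpecF

set_option autoImplicit false

/-!
# MP_07c750, project MS, row ms:FNM (from continuous functions to Borel sets)
-/

open scoped MatrixGroups ContDiff Topology UpperHalfPlane ComplexConjugate ENNReal NNReal
open UpperHalfPlane MeasureTheory Filter Set

namespace Pool.Agent.MS

open Pool.Agent.RS
open Pool.Agent.EN (XG MG mkX mkM fl pr)

/-- Domination on continuous functions gives domination of measures. -/
theorem FNM_le {Y : Type} [TopologicalSpace Y] [MeasurableSpace Y] [BorelSpace Y] [CompactSpace Y]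
    [T2Space Y] [SecondCountableTopology Y] (lam ν : Measure Y) [IsFiniteMeasure lam]
    [IsFiniteMeasure ν] (c : ℝ) (hc : 0 ≤ c)
    (H : ∀ V : Y → ℝ, Continuous V → (∀ x, 0 ≤ V x ∧ V x ≤ 1) → c * ∫ x, V x ∂lam ≤ ∫ x, V x ∂ν) :
    ENNReal.ofReal c • lam ≤ ν := by
  have : TopologicalSpace.MetrizableSpace Y := TopologicalSpace.metrizableSpace_of_t3_secondCountable Y
  have hK : ∀ K : Set Y, IsClosed K → ENNReal.ofReal c * lam K ≤ ν K := by
    intro K hK
    have t1 := HasOuterApproxClosed.tendsto_lintegral_apprSeq hK lam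
    have t2 := HasOuterApproxClosed.tendsto_lintegral_apprSeq hK ν
    refine le_of_tendsto_of_tendsto' (ENNReal.Tendsto.const_mul t1 (Or.inr ENNReal.ofReal_ne_top)) t2 ?_
    intro n
    have hcont : Continuous (fun x => ((hK.apprSeq n x : ℝ≥0) : ℝ)) :=
      NNReal.continuous_coe.comp (hK.apprSeq n).continuous
    have h01 : ∀ x, 0 ≤ ((hK.apprSeq n x : ℝ≥0) : ℝ) ∧ ((hK.apprSeq n x : ℝ≥0) : ℝ) ≤ 1 := fun x =>
      ⟨NNReal.coe_nonneg _, by exact_mod_cast HasOuterApproxClosed.apprSeq_apply_le_one hK n x⟩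
    have hint : ∀ (ρ : Measure Y) [IsFiniteMeasure ρ], ∫⁻ x, (hK.apprSeq n x : ℝ≥0∞) ∂ρ =
        ENNReal.ofReal (∫ x, ((hK.apprSeq n x : ℝ≥0) : ℝ) ∂ρ) := by
      intro ρ _
      rw [ofReal_integral_eq_lintegral_ofReal]
      · refine lintegral_congr fun x => ?_
        rw [ENNReal.ofReal_coe_nnreal]
      · refine Integrable.of_bound hcont.aestronglyMeasurable 1 (Eventually.of_forall fun x => ?_)
        rw [Real.norm_eq_abs, abs_of_nonneg (h01 x).1]
        exact (h01 x).2
      · exact Eventually.of_forall fun x => (h01 x).1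
    rw [hint lam, hint ν, ← ENNReal.ofReal_mul hc]
    exact ENNReal.ofReal_le_ofReal (H _ hcont h01)
  refine Measure.le_iff.2 fun A hA => ?_
  rw [Measure.smul_apply, smul_eq_mul]
  have hfin : lam A ≠ ⊤ := measure_ne_top lam A
  rw [hA.measure_eq_iSup_isClosed_of_ne_top hfin]
  rw [ENNReal.mul_iSup]
  refine iSup_le fun K => ?_
  rw [ENNReal.mul_iSup]
  refine iSup_le fun hKA => ?_
  rw [ENNReal.mul_iSup]
  refine iSup_le fun hKc => ?_
  exact (hK K hKc).trans (measure_mono hKA)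

theorem FNM_proof (h1 : CRE_stmt) (h2 : EN.XTM_stmt) (h3 : EN.XFL_stmt) (h4 : QU.DOM_stmt)
    (h5 : QU.DOB_stmt) : FNM_stmt := by
  intro Γ F r φ ν E hΓ hF hr hφ hn hν hlim hE hdim
  obtain ⟨mc, mt, msc⟩ := h2 Γ hΓ
  obtain ⟨-, -, -, -, -, hmkM, homM, hsM, -, -, -, heqM⟩ := h3 Γ
  obtain ⟨F₀, hF₀⟩ := h4 Γ hΓ
  obtain ⟨hcount, hfd, hpos, hfin, hdom, -⟩ := h5 Γ F₀ hΓ hF₀
  obtain ⟨hvol, hint⟩ := hdom F hF
  -- eigenfunctions
  have hinv : ∀ k (γ : Γ) (z : ℍ), φ k (γ • z) = φ k z := fun k => (hφ k).2.1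
  have hmk : ∀ (γ : Γ) (z : ℍ), mkM Γ (γ • z) = mkM Γ z := fun γ z =>
    ((heqM z (γ • z)).2 ⟨γ, rfl⟩).symm
  have hn' : ∀ k, nn F₀ (φ k) = 1 := by
    intro k
    have h := hint (fun z => ‖φ k z‖ ^ 2) (fun γ z => by rw [hinv k γ z])
    rw [hn k] at h
    exact h.symm
  have hlim' : ∀ V : MG Γ → ℝ, Continuous V →
      Tendsto (fun k => ∫ z in F₀, V (mkM Γ z) * ‖φ k z‖ ^ 2) atTop (𝓝 (∫ x, V x ∂ν)) := by
    intro V hV
    refine (hlim V hV).congr fun k => ?_
    exact hint (fun z => V (mkM Γ z) * ‖φ k z‖ ^ 2) (fun γ z => by rw [hinv k γ z, hmk γ z])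
  have hCRE := h1 Γ F₀ r φ ν E hΓ hF₀ hr hφ hn' hν hlim' hE hdim
  -- the image measures agree
  have hmap : ((volume : Measure ℍ).restrict F).map (mkM Γ) =
      ((volume : Measure ℍ).restrict F₀).map (mkM Γ) := by
    refine Measure.ext fun A hA => ?_
    rw [Measure.map_apply hmkM.measurable hA, Measure.map_apply hmkM.measurable hA]
    have hB : MeasurableSet (mkM Γ ⁻¹' A) := hmkM.measurable hA
    rw [Measure.restrict_apply hB, Measure.restrict_apply hB]
    have h := hint ((mkM Γ ⁻¹' A).indicator (fun _ => (1 : ℝ))) (fun γ z => by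
      have : (γ • z ∈ mkM Γ ⁻¹' A) ↔ (z ∈ mkM Γ ⁻¹' A) := by
        rw [mem_preimage, mem_preimage, hmk γ z]
      by_cases hz : z ∈ mkM Γ ⁻¹' A
      · rw [indicator_of_mem hz, indicator_of_mem (this.2 hz)]
      · rw [indicator_of_notMem hz, indicator_of_notMem (fun h => hz (this.1 h))])
    rw [integral_indicator hB, integral_indicator hB, Measure.restrict_restrict hB,
      Measure.restrict_restrict hB] at h
    simp only [integral_const, smul_eq_mul, mul_one, Measure.real, Measure.restrict_apply_univ] at h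
    refine (ENNReal.toReal_eq_toReal_iff' ?_ ?_).1 h
    · exact ne_top_of_le_ne_top (by rw [hvol]; exact hfin.ne) (measure_mono inter_subset_right)
    · exact ne_top_of_le_ne_top hfin.ne (measure_mono inter_subset_right)
  rw [hmap, hvol]
  set lam : Measure (MG Γ) := (volume F₀)⁻¹ • ((volume : Measure ℍ).restrict F₀).map (mkM Γ) with hlam
  have : IsFiniteMeasure ((volume : Measure ℍ).restrict F₀) := ⟨by rw [Measure.restrict_apply_univ]; exact hfin⟩
  have hlf : IsFiniteMeasure lam := by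
    refine ⟨?_⟩
    rw [hlam, Measure.smul_apply, smul_eq_mul]
    exact ENNReal.mul_lt_top (ENNReal.inv_lt_top.2 hpos) (measure_lt_top _ _)
  have hmain := FNM_le lam ν (ν.real E) measureReal_nonneg (fun V hV h01 => by
    have h := hCRE V hV h01
    have e : ∫ x, V x ∂lam = (∫ z in F₀, V (mkM Γ z)) / (volume F₀).toReal := by
      rw [hlam, integral_smul_measure, integral_map hmkM.aemeasurable hV.aestronglyMeasurable,
        ENNReal.toReal_inv, smul_eq_mul, div_eq_inv_mul]
    rw [e]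
    exact h)
  have hE' : ENNReal.ofReal (ν.real E) = ν E := by
    unfold Measure.real
    exact ENNReal.ofReal_toReal (measure_ne_top ν E)
  rw [hE'] at hmain
  exact hmain

end Pool.Agent.MS
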